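import Mathlib
import Pool.Agent.H.MP_6bb0fd_an.Op

set_option autoImplicit false

namespace Pool.Agent.Results.MP_6bb0fd_an.No

open Polynomial Pool.Agent.H.MP_6bb0fd_an

theorem result : ∃ (T : ℝ[X] →ₗ[ℝ] ℝ[X]) (Q : ℕ → ℝ[X]),
    (∀ f, T f = ∑ᶠ k, Q k * derivative^[k] f) ∧ {k | Q k ≠ 0}.Infinite ∧
    (∀ f : ℝ[X], f.Splits → (T f).Splits) ∧ 3 ≤ Module.rank ℝ (LinearMap.range T) ∧
    ∃ k, Q k ≠ 0 ∧ Q (k + 1) ≠ 0 ∧ (Q (k + 1)).degree < (Q k).degree :=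
  ⟨T, Q, rep, Q_inf, fun _ => pres, rk, 1, nonmono⟩

end Pool.Agent.Results.MP_6bb0fd_an.No
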